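import Pool.Agent.K1H89.DLSP.D

set_option autoImplicit false

/-!
Project DL, piece SP: `S_SUP` from `S_CORE`.
-/

namespace Pool.Agent.K1H89.DLSP

open MeasureTheory Set Filter Topology
open Complex (I)
open Pool.Agent.Y969.GP (ff ht lam PS PX cr co V)
open Pool.Agent.K1H51.DL

noncomputable section

/-- the factor of the pair -/
def hp (σ τ : ℝ) (p : ℕ × ℕ) : ℂ :=
  Complex.exp (-((1 / 2 + σ + I * τ) * ((Real.log (ht p) : ℝ) : ℂ)))

lemma norm_hp {σ : ℝ} (hσ : 0 < σ) {p : ℕ × ℕ} (h : 1 ≤ ht p) (τ : ℝ) : ‖hp σ τ p‖ ≤ 1 := by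
  unfold hp
  rw [Complex.norm_exp, Real.exp_le_one_iff]
  have e1 : (-((1 / 2 + σ + I * τ : ℂ) * ((Real.log (ht p) : ℝ) : ℂ))).re
      = -((1 / 2 + σ) * Real.log (ht p)) := by
    simp [Complex.mul_re]
  rw [e1]
  have := Real.log_nonneg h
  nlinarith [mul_nonneg hσ.le this]

lemma hp_cont (σ : ℝ) (p : ℕ × ℕ) : Continuous fun τ => hp σ τ p := by
  unfold hp
  fun_prop

/-- one term of the double integral -/
def Fp (T σ y : ℝ) (p : ℕ × ℕ) (u τ : ℝ) : ℂ := Kr σ τ * hp σ τ p * gg T σ y p u τ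

lemma norm_Fp {T σ : ℝ} (hσ : 0 < σ) (hσ1 : σ ≤ 1) (y : ℝ) {p : ℕ × ℕ} (h : 1 ≤ ht p) (u τ : ℝ) :
    ‖Fp T σ y p u τ‖ ≤ (Real.exp (σ * Real.log u) * |wd T u|) *
      (Real.exp 1 / σ * Real.exp (-τ ^ 2)) := by
  unfold Fp
  rw [norm_mul, norm_mul, norm_gg, mul_comm]
  apply mul_le_mul_of_nonneg_left _ (by positivity)
  calc ‖Kr σ τ‖ * ‖hp σ τ p‖ ≤ ‖Kr σ τ‖ * 1 :=
        mul_le_mul_of_nonneg_left (norm_hp hσ h τ) (norm_nonneg _)
    _ = ‖Kr σ τ‖ := mul_one _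
    _ ≤ _ := norm_Kr_le hσ hσ1 τ

lemma gauss_int : Integrable fun τ : ℝ => Real.exp (-τ ^ 2) := by
  have h := integrable_exp_neg_mul_sq (show (0 : ℝ) < 1 by norm_num)
  simpa using h

lemma Fp_meas {T σ : ℝ} (hσ : 0 < σ) (y : ℝ) (p : ℕ × ℕ) :
    Measurable fun z : ℝ × ℝ => Fp T σ y p z.1 z.2 := by
  unfold Fp
  exact (((Kr_cont hσ).measurable.comp measurable_snd).mul
    ((hp_cont σ p).measurable.comp measurable_snd)).mul (gg_meas T σ y p)

lemma Fp_int {T σ : ℝ} (hT : 0 < T) (hσ : 0 < σ) (hσ1 : σ ≤ 1) (y : ℝ) {p : ℕ × ℕ}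
    (h : 1 ≤ ht p) :
    Integrable (fun z : ℝ × ℝ => Fp T σ y p z.1 z.2) ((volume.restrict (Ioi (0 : ℝ))).prod volume) := by
  refine Integrable.mono' (g := fun z : ℝ × ℝ => (Real.exp (σ * Real.log z.1) * |wd T z.1|) *
      (Real.exp 1 / σ * Real.exp (-z.2 ^ 2))) ?_ (Fp_meas hσ y p).aestronglyMeasurable
    (Eventually.of_forall fun z => norm_Fp hσ hσ1 y h z.1 z.2)
  exact Integrable.mul_prod (al_int hT hσ) (gauss_int.const_mul _)

/-- the value of the off-diagonal integrand -/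
lemma co_int {T σ : ℝ} (hσ : 0 < σ) (y : ℝ) {p : ℕ × ℕ} (h : 1 ≤ ht p) {u : ℝ} (hu : 0 < u) :
    (co p u : ℂ) * Complex.exp (I * ((u * lam p : ℝ) : ℂ)) * (wd T u : ℂ) * tw y u
      = ((Real.pi⁻¹ : ℝ) : ℂ) * ∫ τ : ℝ, Fp T σ y p u τ := by
  have hx : 0 < 2 * Real.pi * ht p / u := by positivity
  have hV := Pool.Agent.Y587.GP.t_V.2.2.2.2.2.2 σ (2 * Real.pi * ht p / u) hσ hx
  have hlog : Real.log (2 * Real.pi * ht p / u)
      = Real.log (2 * Real.pi) + Real.log (ht p) - Real.log u := by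
    rw [Real.log_div (by positivity) hu.ne', Real.log_mul (by positivity) (by positivity)]
  have hsq : (((√(ht p))⁻¹ : ℝ) : ℂ) = Complex.exp (-((1 / 2 : ℂ) * ((Real.log (ht p) : ℝ) : ℂ))) := by
    have e1 : (√(ht p))⁻¹ = Real.exp (-(1 / 2 * Real.log (ht p))) := by
      rw [Real.exp_neg, Real.sqrt_eq_rpow, Real.rpow_def_of_pos (by linarith), mul_comm]
    rw [e1, Complex.ofReal_exp]
    push_cast
    rfl
  have e1 : ∫ τ : ℝ, Fp T σ y p u τ = (((√(ht p))⁻¹ : ℝ) : ℂ) *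
      Complex.exp (I * ((u * lam p : ℝ) : ℂ)) * (wd T u : ℂ) * tw y u *
      ∫ τ : ℝ, Complex.exp (-((σ + I * τ) * (Real.log (2 * Real.pi * ht p / u) : ℝ))) *
        Complex.exp ((σ + I * τ) ^ 2) / (σ + I * τ) := by
    rw [← integral_const_mul]
    apply integral_congr_ae
    refine Eventually.of_forall fun τ => ?_
    simp only
    unfold Fp Kr hp gg
    rw [hlog, hsq]
    have e2 : Complex.exp (-((σ + I * τ) * ((Real.log (2 * Real.pi) + Real.log (ht p)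
        - Real.log u : ℝ) : ℂ))) = Complex.exp (-((σ + I * τ) * ((Real.log (2 * Real.pi) : ℝ) : ℂ))) *
        Complex.exp (-((σ + I * τ) * ((Real.log (ht p) : ℝ) : ℂ))) *
        Complex.exp ((σ + I * τ) * ((Real.log u : ℝ) : ℂ)) := by
      rw [← Complex.exp_add, ← Complex.exp_add]
      congr 1
      push_cast
      ring
    have e3 : Complex.exp (-((1 / 2 + σ + I * τ) * ((Real.log (ht p) : ℝ) : ℂ)))
        = Complex.exp (-((1 / 2 : ℂ) * ((Real.log (ht p) : ℝ) : ℂ))) *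
          Complex.exp (-((σ + I * τ) * ((Real.log (ht p) : ℝ) : ℂ))) := by
      rw [← Complex.exp_add]
      congr 1
      ring
    rw [e2, e3]
    ring
  rw [e1]
  unfold co
  rw [Complex.ofReal_mul, Complex.ofReal_mul, hV]
  have hpi : (Real.pi : ℂ) ≠ 0 := by exact_mod_cast Real.pi_ne_zero
  have h2 : ((Real.pi⁻¹ : ℝ) : ℂ) = ((2 : ℝ) : ℂ) * ((2 * Real.pi : ℝ) : ℂ)⁻¹ := by
    push_cast
    field_simp
  rw [h2]
  ring

/-- the off-diagonal part of the integral -/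
lemma int_Od {T σ : ℝ} (hT : 0 < T) (hσ : 0 < σ) (hσ1 : σ ≤ 1) (y : ℝ) (X : ℕ) :
    IntegrableOn (fun u => Od X u * (wd T u : ℂ) * tw y u) (Ioi 0) ∧
    ∫ u in Ioi (0 : ℝ), Od X u * (wd T u : ℂ) * tw y u
      = ((Real.pi⁻¹ : ℝ) : ℂ) * ∫ τ : ℝ, Kr σ τ * Sg X T σ τ (τ - y) := by
  obtain ⟨Q, hQ⟩ : ∃ Q, Q = (PS X).filter (fun p => p.1 ≠ p.2) := ⟨_, rfl⟩
  have hQ1 : ∀ p ∈ Q, 1 ≤ ht p := fun p hp => by
    rw [hQ] at hp
    exact ht_ge (Finset.mem_filter.1 hp).1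
  have hFi : Integrable (fun z : ℝ × ℝ => ∑ p ∈ Q, Fp T σ y p z.1 z.2)
      ((volume.restrict (Ioi (0 : ℝ))).prod volume) :=
    integrable_finsetSum _ fun p hp => Fp_int hT hσ hσ1 y (hQ1 p hp)
  have hτ : ∀ p ∈ Q, ∀ u : ℝ, Integrable fun τ => Fp T σ y p u τ := by
    intro p hp u
    refine Integrable.mono' (g := fun τ => (Real.exp (σ * Real.log u) * |wd T u|) *
      (Real.exp 1 / σ * Real.exp (-τ ^ 2))) ((gauss_int.const_mul _).const_mul _) ?_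
      (Eventually.of_forall fun τ => norm_Fp hσ hσ1 y (hQ1 p hp) u τ)
    exact ((Fp_meas hσ y p).comp measurable_prodMk_left).aestronglyMeasurable
  have hu : ∀ p ∈ Q, ∀ τ : ℝ, IntegrableOn (fun u => Fp T σ y p u τ) (Ioi 0) := by
    intro p hp τ
    refine Integrable.mono' (g := fun u => (Real.exp (σ * Real.log u) * |wd T u|) *
      (Real.exp 1 / σ * Real.exp (-τ ^ 2))) ((al_int hT hσ).mul_const _) ?_
      (Eventually.of_forall fun u => norm_Fp hσ hσ1 y (hQ1 p hp) u τ)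
    exact ((Fp_meas hσ y p).comp measurable_prodMk_right).aestronglyMeasurable
  have hval : ∀ u ∈ Ioi (0 : ℝ), Od X u * (wd T u : ℂ) * tw y u
      = ((Real.pi⁻¹ : ℝ) : ℂ) * ∫ τ : ℝ, ∑ p ∈ Q, Fp T σ y p u τ := by
    intro u hu0
    rw [integral_finsetSum _ fun p hp => hτ p hp u, Finset.mul_sum]
    unfold Od
    rw [← hQ, Finset.sum_mul, Finset.sum_mul]
    apply Finset.sum_congr rfl
    intro p hp
    exact co_int hσ y (hQ1 p hp) (mem_Ioi.1 hu0)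
  constructor
  · have h1 : IntegrableOn (fun u => ((Real.pi⁻¹ : ℝ) : ℂ) * ∫ τ : ℝ, ∑ p ∈ Q, Fp T σ y p u τ)
        (Ioi 0) := Integrable.const_mul hFi.integral_prod_left _
    exact h1.congr_fun (fun u hu => (hval u hu).symm) measurableSet_Ioi
  · rw [setIntegral_congr_fun measurableSet_Ioi hval, integral_const_mul]
    congr 1
    rw [integral_integral_swap hFi]
    apply integral_congr_ae
    refine Eventually.of_forall fun τ => ?_
    simp only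
    rw [integral_finsetSum _ fun p hp => hu p hp τ]
    unfold Sg
    rw [← hQ, Finset.mul_sum, Finset.mul_sum]
    apply Finset.sum_congr rfl
    intro p _
    have e1 : ∫ u in Ioi (0 : ℝ), Fp T σ y p u τ
        = Kr σ τ * hp σ τ p * ∫ u in Ioi (0 : ℝ), gg T σ y p u τ := by
      unfold Fp
      rw [integral_const_mul]
    rw [e1, gg_integral hT hσ]
    unfold hp
    ring

/-- `(1 + |τ|) e^(-τ²)` is integrable -/
lemma lin_gauss_int : Integrable fun τ : ℝ => (1 + |τ|) * Real.exp (-τ ^ 2) := by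
  have h1 := integrable_exp_neg_mul_sq (show (0 : ℝ) < 1 / 2 by norm_num)
  refine Integrable.mono' (h1.const_mul 3) (by fun_prop) (Eventually.of_forall fun τ => ?_)
  rw [Real.norm_eq_abs, abs_of_nonneg (by positivity)]
  have e1 : Real.exp (-τ ^ 2) = Real.exp (-(1 / 2) * τ ^ 2) * Real.exp (-(1 / 2) * τ ^ 2) := by
    rw [← Real.exp_add]
    congr 1
    ring
  rw [e1, ← mul_assoc]
  apply mul_le_mul_of_nonneg_right _ (Real.exp_nonneg _)
  have e2 : 1 + |τ| ≤ 3 * Real.exp (1 / 2 * τ ^ 2) := by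
    have h2 := Real.add_one_le_exp (1 / 2 * τ ^ 2)
    have h3 : |τ| ^ 2 = τ ^ 2 := sq_abs τ
    nlinarith [sq_nonneg (|τ| - 1), abs_nonneg τ]
  have e3 : Real.exp (-(1 / 2) * τ ^ 2) = (Real.exp (1 / 2 * τ ^ 2))⁻¹ := by
    rw [← Real.exp_neg]
    congr 1
    ring
  rw [e3]
  have := Real.exp_pos (1 / 2 * τ ^ 2)
  rw [mul_inv_le_iff₀ this]
  exact e2

/-- SUP from CORE -/
theorem t_SUP (h : S_CORE) : S_SUP := by
  obtain ⟨σ, ε, δ, C, hσ, hσ1, hε, hε1, hδ, hC, hcore⟩ := h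
  obtain ⟨C1, hC1, h1⟩ := int_E1 hε hε1
  obtain ⟨J, hJ⟩ : ∃ J, J = ∫ τ : ℝ, (1 + |τ|) * Real.exp (-τ ^ 2) := ⟨_, rfl⟩
  have hJ0 : 0 ≤ J := by
    rw [hJ]
    exact integral_nonneg fun τ => by positivity
  obtain ⟨d, hd⟩ : ∃ d, d = min δ (1 / 4) := ⟨_, rfl⟩
  have hd0 : 0 < d := by rw [hd]; exact lt_min hδ (by norm_num)
  have hd1 : d ≤ 1 / 4 := by rw [hd]; exact min_le_right _ _
  have hd2 : d ≤ δ := by rw [hd]; exact min_le_left _ _
  refine ⟨d, C1 + Real.exp 1 / σ * C * J, hd0, by linarith, by positivity, ?_⟩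
  intro T y hT
  have hT0 : 0 < T := by linarith
  obtain ⟨X, hX⟩ : ∃ X : ℕ, X = ⌊T ^ (1 + ε)⌋₊ := ⟨_, rfl⟩
  have hXT : (X : ℝ) ≤ T ^ (1 + ε) := by rw [hX]; exact Nat.floor_le (by positivity)
  obtain ⟨i1, b1⟩ := h1 T y X hT hX
  obtain ⟨i2, b2⟩ := int_Od hT0 hσ hσ1 y X
  have hsum : eh T y = (∫ u in Ioi (0 : ℝ), E1 X u * (wd T u : ℂ) * tw y u)
      + ∫ u in Ioi (0 : ℝ), Od X u * (wd T u : ℂ) * tw y u := by
    rw [← integral_add i1 i2]
    unfold eh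
    apply setIntegral_congr_fun measurableSet_Ioi
    intro u _
    simp only
    unfold E1 wd tw
    push_cast
    ring
  have hbd : ‖∫ τ : ℝ, Kr σ τ * Sg X T σ τ (τ - y)‖ ≤ Real.exp 1 / σ * C * J * T ^ (-δ) := by
    have g1 : ∀ τ : ℝ, ‖Kr σ τ * Sg X T σ τ (τ - y)‖
        ≤ (Real.exp 1 / σ * C * T ^ (-δ)) * ((1 + |τ|) * Real.exp (-τ ^ 2)) := by
      intro τ
      rw [norm_mul]
      calc ‖Kr σ τ‖ * ‖Sg X T σ τ (τ - y)‖
          ≤ (Real.exp 1 / σ * Real.exp (-τ ^ 2)) * (C * (1 + |τ|) * T ^ (-δ)) :=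
            mul_le_mul (norm_Kr_le hσ hσ1 τ) (hcore T X τ (τ - y) hT hXT) (norm_nonneg _)
              (by positivity)
        _ = _ := by ring
    refine (norm_integral_le_of_norm_le (lin_gauss_int.const_mul _)
      (Eventually.of_forall g1)).trans (le_of_eq ?_)
    rw [integral_const_mul, ← hJ]
    ring
  have hp1 : T ^ (-(1 / 4) : ℝ) ≤ T ^ (-d) := Real.rpow_le_rpow_of_exponent_le hT (by linarith)
  have hp2 : T ^ (-δ) ≤ T ^ (-d) := Real.rpow_le_rpow_of_exponent_le hT (by linarith)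
  have hpi : Real.pi⁻¹ ≤ 1 := inv_le_one_of_one_le₀ (by linarith [Real.pi_gt_three])
  rw [hsum, b2]
  refine (norm_add_le _ _).trans ?_
  rw [norm_mul, Complex.norm_real, Real.norm_eq_abs, abs_of_pos (by positivity), add_mul]
  refine add_le_add (b1.trans (mul_le_mul_of_nonneg_left hp1 hC1.le)) ?_
  calc Real.pi⁻¹ * ‖∫ τ : ℝ, Kr σ τ * Sg X T σ τ (τ - y)‖
      ≤ 1 * (Real.exp 1 / σ * C * J * T ^ (-δ)) :=
        mul_le_mul hpi hbd (norm_nonneg _) (by norm_num)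
    _ ≤ Real.exp 1 / σ * C * J * T ^ (-d) := by
        rw [one_mul]
        exact mul_le_mul_of_nonneg_left hp2 (by positivity)

end

end Pool.Agent.K1H89.DLSP
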