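import Pool.Agent.K1H51.DL.Stm
import Pool.Agent.Y587.GP.V
import Pool.Agent.Y587.GP.Chi
import Pool.Agent.Y891.GP.AFE
import Pool.Agent.Y620.SX.CRA

set_option autoImplicit false

/-!
Project DL, piece SP: splitting off the off-diagonal sum, and the pointwise bound of the rest.
-/

namespace Pool.Agent.K1H89.DLSP

open MeasureTheory Set Filter Topology
open Complex (I)
open Pool.Agent.Y969.GP (ff ht lam PS PX cr co V)
open Pool.Agent.K1H51.DL

noncomputable section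

lemma afe : Pool.Agent.Y969.GP.S_AFE :=
  Pool.Agent.Y891.GP.t_AFE Pool.Agent.Y587.GP.t_V Pool.Agent.Y587.GP.Chi.t_CHI

lemma ff_cont : Continuous ff := by
  unfold ff
  have : Continuous fun u : ℝ => riemannZeta (1 / 2 + I * u) := by
    rw [continuous_iff_continuousAt]
    intro u
    have h1 : (1 / 2 + I * u : ℂ) ≠ 1 := by
      intro h
      have := congrArg Complex.re h
      simp at this
    have h2 := (differentiableAt_riemannZeta h1).continuousAt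
    exact ContinuousAt.comp (f := fun u : ℝ => (1 / 2 + I * u : ℂ)) h2 (by fun_prop)
  exact this.norm.pow 2

lemma ff_nonneg (u : ℝ) : 0 ≤ ff u := by unfold ff; positivity

/-- the off-diagonal sum -/
def Od (X : ℕ) (u : ℝ) : ℂ :=
  ∑ p ∈ (PS X).filter (fun p => p.1 ≠ p.2), (co p u : ℂ) * Complex.exp (I * ((u * lam p : ℝ) : ℂ))

lemma PX_split (X : ℕ) (u : ℝ) : PX X u = (cr X (1, 1) u : ℂ) + Od X u := by
  unfold PX Od
  rw [← Finset.sum_filter_add_sum_filter_not (PS X) (fun p => p.1 = p.2)]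
  congr 1
  unfold cr
  rw [Complex.ofReal_sum]
  symm
  apply Finset.sum_bij (fun (g : ℕ) _ => ((g, g) : ℕ × ℕ))
  · intro g hg
    rw [Finset.mem_filter, Finset.mem_Icc] at hg
    unfold PS
    rw [Finset.mem_filter, Finset.mem_filter, Finset.mem_product, Finset.mem_Icc]
    refine ⟨⟨⟨hg.1, hg.1⟩, ?_⟩, rfl⟩
    simpa using hg.2
  · intro g _ g' _ h
    exact congrArg Prod.fst h
  · rintro ⟨a, b⟩ h
    unfold PS at h
    rw [Finset.mem_filter, Finset.mem_filter, Finset.mem_product, Finset.mem_Icc, Finset.mem_Icc] at h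
    obtain ⟨⟨⟨h1, h2⟩, h3⟩, h4⟩ := h
    simp only at h1 h2 h3 h4
    subst h4
    refine ⟨a, ?_, rfl⟩
    rw [Finset.mem_filter, Finset.mem_Icc]
    refine ⟨h1, ?_⟩
    simpa using h3
  · intro g _
    have h1 : lam (g, g) = 0 := by unfold lam; simp
    rw [h1, mul_zero, Complex.ofReal_zero, mul_zero, Complex.exp_zero, mul_one]
    simp

lemma ht_ge {X : ℕ} {p : ℕ × ℕ} (hp : p ∈ PS X) : 1 ≤ ht p := by
  unfold PS at hp
  rw [Finset.mem_filter, Finset.mem_product, Finset.mem_Icc, Finset.mem_Icc] at hp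
  obtain ⟨⟨⟨h1, -⟩, h2, -⟩, -⟩ := hp
  unfold ht
  have e1 : (1 : ℝ) ≤ p.1 := by exact_mod_cast h1
  have e2 : (1 : ℝ) ≤ p.2 := by exact_mod_cast h2
  nlinarith

lemma co_abs_le {p : ℕ × ℕ} (hp : 1 ≤ ht p) {u : ℝ} (hu : 0 < u) : |co p u| ≤ 2 := by
  have hx : 0 < 2 * Real.pi * ht p / u := by positivity
  obtain ⟨h1, h2⟩ := Pool.Agent.Y587.GP.t_V.1 _ hx
  unfold co
  rw [abs_mul, abs_mul, abs_of_pos (by norm_num : (0 : ℝ) < 2), abs_of_nonneg h1,
    abs_of_nonneg (inv_nonneg.2 (Real.sqrt_nonneg _))]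
  have h3 : (√(ht p))⁻¹ ≤ 1 := inv_le_one_of_one_le₀ (by rw [Real.one_le_sqrt]; exact hp)
  have h4 : 0 ≤ (√(ht p))⁻¹ := inv_nonneg.2 (Real.sqrt_nonneg _)
  nlinarith

lemma card_PS (X : ℕ) : ((PS X).card : ℝ) ≤ (X : ℝ) ^ 2 := by
  have h1 : (PS X).card ≤ X * X := by
    unfold PS
    refine (Finset.card_filter_le _ _).trans ?_
    rw [Finset.card_product, Nat.card_Icc]
    simp
  have h2 : ((PS X).card : ℝ) ≤ ((X * X : ℕ) : ℝ) := by exact_mod_cast h1
  rw [Nat.cast_mul] at h2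
  nlinarith

lemma norm_e (x : ℝ) : ‖Complex.exp (I * ((x : ℝ) : ℂ))‖ = 1 := by
  rw [mul_comm]
  exact Complex.norm_exp_ofReal_mul_I x

lemma Od_le (X : ℕ) {u : ℝ} (hu : 0 < u) : ‖Od X u‖ ≤ 2 * (X : ℝ) ^ 2 := by
  unfold Od
  calc ‖∑ p ∈ (PS X).filter (fun p => p.1 ≠ p.2),
        (co p u : ℂ) * Complex.exp (I * ((u * lam p : ℝ) : ℂ))‖
      ≤ ∑ p ∈ (PS X).filter (fun p => p.1 ≠ p.2), (2 : ℝ) := by
        refine norm_sum_le_of_le _ fun p hp => ?_
        rw [norm_mul, norm_e, mul_one, Complex.norm_real, Real.norm_eq_abs]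
        exact co_abs_le (ht_ge (Finset.mem_filter.1 hp).1) hu
    _ ≤ ∑ p ∈ PS X, (2 : ℝ) :=
        Finset.sum_le_sum_of_subset_of_nonneg (Finset.filter_subset _ _) (fun _ _ _ => by norm_num)
    _ = (PS X).card * 2 := by rw [Finset.sum_const, nsmul_eq_mul]
    _ ≤ (X : ℝ) ^ 2 * 2 := mul_le_mul_of_nonneg_right (card_PS X) (by norm_num)
    _ = _ := by ring

lemma PX_le (X : ℕ) {u : ℝ} (hu : 0 < u) : ‖PX X u‖ ≤ 2 * (X : ℝ) ^ 2 := by
  unfold PX
  calc ‖∑ p ∈ PS X, (co p u : ℂ) * Complex.exp (I * ((u * lam p : ℝ) : ℂ))‖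
      ≤ ∑ p ∈ PS X, (2 : ℝ) := by
        refine norm_sum_le_of_le _ fun p hp => ?_
        rw [norm_mul, norm_e, mul_one, Complex.norm_real, Real.norm_eq_abs]
        exact co_abs_le (ht_ge hp) hu
    _ = (PS X).card * 2 := by rw [Finset.sum_const, nsmul_eq_mul]
    _ ≤ (X : ℝ) ^ 2 * 2 := mul_le_mul_of_nonneg_right (card_PS X) (by norm_num)
    _ = _ := by ring

/-- polynomial bound for zeta -/
lemma ff_poly : ∃ C : ℝ, 0 < C ∧ ∀ u : ℝ, 0 ≤ u → ff u ≤ C * (1 + u) ^ 4 := by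
  obtain ⟨C1, hC1, h1⟩ := afe (1 / 2) (by norm_num)
  obtain ⟨C2, hC2⟩ := (isCompact_Icc (a := (0 : ℝ)) (b := 1)).exists_bound_of_continuousOn
    ff_cont.continuousOn
  have hC20 : 0 ≤ C2 := (norm_nonneg _).trans (hC2 0 (by constructor <;> norm_num))
  refine ⟨C2 + C1 + 50, by linarith, fun u hu => ?_⟩
  have h4 : 1 ≤ (1 + u) ^ 4 := one_le_pow₀ (by linarith)
  rcases le_total u 1 with hu1 | hu1
  · have := hC2 u ⟨hu, hu1⟩
    rw [Real.norm_eq_abs, abs_of_nonneg (ff_nonneg u)] at this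
    nlinarith
  · obtain ⟨X, hX⟩ : ∃ X : ℕ, X = ⌈u ^ (1 + 1 / 2 : ℝ)⌉₊ := ⟨_, rfl⟩
    have hXu : u ^ (1 + 1 / 2 : ℝ) ≤ X := by rw [hX]; exact Nat.le_ceil _
    have h2 := h1 u X hu1 hXu
    have h3 : u ^ (1 + 1 / 2 : ℝ) ≤ u ^ 2 := by
      rw [← Real.rpow_natCast]
      exact Real.rpow_le_rpow_of_exponent_le hu1 (by norm_num)
    have h5 : (X : ℝ) ≤ u ^ 2 + 1 := by
      have h6 : (X : ℝ) < u ^ (1 + 1 / 2 : ℝ) + 1 := by
        rw [hX]
        exact Nat.ceil_lt_add_one (by positivity)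
      linarith
    have h6 : u ^ (-(1 / 2) + 1 / 2 : ℝ) = 1 := by norm_num
    rw [h6, mul_one] at h2
    have h7 := PX_le X (by linarith : 0 < u)
    have h8 : ff u ≤ ‖(ff u : ℂ) - PX X u‖ + ‖PX X u‖ := by
      have h9 : ‖(ff u : ℂ)‖ = ff u := by
        rw [Complex.norm_real, Real.norm_eq_abs, abs_of_nonneg (ff_nonneg u)]
      have h10 := norm_add_le ((ff u : ℂ) - PX X u) (PX X u)
      rw [sub_add_cancel, h9] at h10
      exact h10
    have h9 : (X : ℝ) ^ 2 ≤ (1 + u) ^ 4 := by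
      have h10 : (X : ℝ) ≤ (1 + u) ^ 2 := by nlinarith
      calc (X : ℝ) ^ 2 ≤ ((1 + u) ^ 2) ^ 2 := pow_le_pow_left₀ (Nat.cast_nonneg _) h10 2
        _ = _ := by ring
    nlinarith

/-- bound for the main term -/
lemma Mz_le : ∃ C : ℝ, 0 < C ∧ ∀ u : ℝ, 0 < u → |Mz u| ≤ C * (u ^ (-(1 / 4) : ℝ) + u) := by
  refine ⟨6 + |Real.log (2 * Real.pi)| + |2 * Real.eulerMascheroniConstant|, by positivity,
    fun u hu => ?_⟩
  have h1 : |Real.log u| ≤ 4 * (u ^ (-(1 / 4) : ℝ) + u) := by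
    have hp : 0 < u ^ (-(1 / 4) : ℝ) := by positivity
    rcases le_total u 1 with hu1 | hu1
    · rw [abs_of_nonpos (Real.log_nonpos hu.le hu1)]
      have h2 := Real.log_le_rpow_div (show 0 ≤ u⁻¹ by positivity) (show (0 : ℝ) < 1 / 4 by norm_num)
      rw [Real.log_inv, Real.inv_rpow hu.le, ← Real.rpow_neg hu.le] at h2
      linarith
    · rw [abs_of_nonneg (Real.log_nonneg hu1)]
      have := Real.log_le_sub_one_of_pos hu
      linarith
  have h2 : 1 ≤ u ^ (-(1 / 4) : ℝ) + u := by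
    rcases le_total u 1 with hu1 | hu1
    · have : 1 ≤ u ^ (-(1 / 4) : ℝ) := Real.one_le_rpow_of_pos_of_le_one_of_nonpos hu hu1 (by norm_num)
      linarith
    · have : 0 ≤ u ^ (-(1 / 4) : ℝ) := by positivity
      linarith
  unfold Mz
  rw [Real.log_div hu.ne' (by positivity)]
  have h3 : |Real.log u - Real.log (2 * Real.pi) + 2 * Real.eulerMascheroniConstant|
      ≤ |Real.log u| + |Real.log (2 * Real.pi)| + |2 * Real.eulerMascheroniConstant| :=
    (abs_add_le _ _).trans (add_le_add_left (abs_sub _ _) _)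
  have h4 : 0 ≤ |Real.log (2 * Real.pi)| := abs_nonneg _
  have h5 : 0 ≤ |2 * Real.eulerMascheroniConstant| := abs_nonneg _
  nlinarith

end

end Pool.Agent.K1H89.DLSP
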