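import Pool.Agent.K1H89.DLSP.A

set_option autoImplicit false

/-!
Project DL, piece SP: the integral of the rest.
-/

namespace Pool.Agent.K1H89.DLSP

open MeasureTheory Set Filter Topology
open Complex (I)
open Pool.Agent.Y969.GP (ff ht lam PS PX cr co V)
open Pool.Agent.K1H51.DL

noncomputable section

/-- the rest -/
def E1 (X : ℕ) (u : ℝ) : ℂ := ((ff u - Mz u : ℝ) : ℂ) - Od X u

lemma E1_eq (X : ℕ) (u : ℝ) :
    E1 X u = ((ff u : ℂ) - PX X u) + ((cr X (1, 1) u - Mz u : ℝ) : ℂ) := by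
  unfold E1
  rw [PX_split]
  push_cast
  ring

lemma E1_mid {ε : ℝ} (hε : 0 < ε) (hε1 : ε ≤ 1 / 100) : ∃ C : ℝ, 0 < C ∧ ∀ (X : ℕ) (u : ℝ), 1 ≤ u →
    u ^ (1 + ε / 4) ≤ (X : ℝ) → ‖E1 X u‖ ≤ C * u ^ (-(1 / 4) : ℝ) := by
  obtain ⟨C1, hC1, h1⟩ := afe (ε / 4) (by linarith)
  obtain ⟨C2, hC2, h2⟩ := Pool.Agent.Y620.SX.t_CRA' (ε / 4) (by linarith)
  refine ⟨C1 + C2, by linarith, fun X u hu hX => ?_⟩
  have e1 := h1 u X hu hX
  have hht : ht (1, 1) = 1 := by unfold ht; simp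
  have e2 := h2 X (1, 1) u le_rfl le_rfl hu hX (by rw [hht]; exact Real.one_le_rpow hu (by norm_num))
  rw [hht, Real.sqrt_one, one_mul, mul_one] at e2
  have e3 : u ^ (-(1 / 2) + ε / 4 : ℝ) ≤ u ^ (-(1 / 4) : ℝ) :=
    Real.rpow_le_rpow_of_exponent_le hu (by linarith)
  rw [E1_eq]
  refine (norm_add_le _ _).trans ?_
  rw [Complex.norm_real, Real.norm_eq_abs, add_mul]
  refine add_le_add (e1.trans (mul_le_mul_of_nonneg_left e3 hC1.le)) ?_
  exact e2

/-- the uniform bound for the rest -/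
lemma E1_all {ε : ℝ} (hε : 0 < ε) (hε1 : ε ≤ 1 / 100) : ∃ C M : ℝ, 0 < C ∧ 0 ≤ M ∧
    ∀ (T : ℝ) (X : ℕ) (u : ℝ), 1 ≤ T → X = ⌊T ^ (1 + ε)⌋₊ → 0 < u →
      ‖E1 X u‖ ≤ C * (u ^ (-(1 / 4) : ℝ) * ((u / T) ^ (-3 : ℝ) + 1 + (u / T) ^ M)) := by
  obtain ⟨C1, hC1, h1⟩ := E1_mid hε hε1
  obtain ⟨C2, hC2, h2⟩ := ff_poly
  obtain ⟨C3, hC3, h3⟩ := Mz_le
  obtain ⟨M, hM⟩ : ∃ M : ℝ, M = 17 * (1 + ε) / (3 * ε) := ⟨_, rfl⟩
  obtain ⟨D, hD⟩ : ∃ D : ℝ, D = (2 : ℝ) ^ (17 / (3 * ε) : ℝ) := ⟨_, rfl⟩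
  have hD0 : 0 < D := by rw [hD]; positivity
  refine ⟨C1 + (16 * C2 + 2 * C3 + 2) + (16 * C2 + 2 * C3 + 2) * D, M, by positivity, by
    rw [hM]; positivity, ?_⟩
  intro T X u hT hX hu
  have hT0 : 0 < T := by linarith
  have hTx1 : 1 ≤ T ^ (1 + ε) := Real.one_le_rpow hT (by linarith)
  have hXT : (X : ℝ) ≤ T ^ (1 + ε) := by rw [hX]; exact Nat.floor_le (by linarith)
  have hX1 : 1 ≤ X := by
    rw [hX]
    exact Nat.one_le_floor_iff _ |>.2 hTx1
  have hX1R : (1 : ℝ) ≤ X := by exact_mod_cast hX1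
  have hTX : T ^ (1 + ε) ≤ 2 * X := by
    have : T ^ (1 + ε) < X + 1 := by rw [hX]; exact Nat.lt_floor_add_one _
    linarith
  have hup : 0 < u ^ (-(1 / 4) : ℝ) := by positivity
  have hq3 : 0 < (u / T) ^ (-3 : ℝ) := by positivity
  have hqM : 0 < (u / T) ^ M := by positivity
  -- the general bound
  have hgen : ‖E1 X u‖ ≤ C2 * (1 + u) ^ 4 + C3 * (u ^ (-(1 / 4) : ℝ) + u) + 2 * (X : ℝ) ^ 2 := by
    unfold E1
    refine (norm_sub_le _ _).trans ?_
    refine add_le_add ?_ (Od_le X hu)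
    rw [Complex.norm_real, Real.norm_eq_abs]
    refine (abs_sub _ _).trans ?_
    refine add_le_add ?_ (h3 u hu)
    rw [abs_of_nonneg (ff_nonneg u)]
    exact h2 u hu.le
  rcases le_total u 1 with hu1 | hu1
  · -- small `u`
    have e1 : (u / T) ^ (-3 : ℝ) = T ^ 3 * u ^ (-3 : ℝ) := by
      rw [Real.div_rpow hu.le hT0.le, Real.rpow_neg hT0.le, div_inv_eq_mul, mul_comm]
      norm_num
    have e2 : 1 ≤ u ^ (-3 : ℝ) := Real.one_le_rpow_of_pos_of_le_one_of_nonpos hu hu1 (by norm_num)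
    have e3 : 1 ≤ u ^ (-(1 / 4) : ℝ) :=
      Real.one_le_rpow_of_pos_of_le_one_of_nonpos hu hu1 (by norm_num)
    have e4 : (X : ℝ) ^ 2 ≤ T ^ 3 := by
      calc (X : ℝ) ^ 2 ≤ (T ^ (1 + ε)) ^ 2 := pow_le_pow_left₀ (Nat.cast_nonneg _) hXT 2
        _ = T ^ ((1 + ε) * 2) := by rw [← Real.rpow_natCast, ← Real.rpow_mul hT0.le]; norm_num
        _ ≤ T ^ (3 : ℝ) := Real.rpow_le_rpow_of_exponent_le hT (by linarith)
        _ = T ^ 3 := by norm_num
    have e5 : 1 ≤ T ^ 3 := one_le_pow₀ hT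
    have e6 : T ^ 3 ≤ (u / T) ^ (-3 : ℝ) := by
      rw [e1]
      exact le_mul_of_one_le_right (by positivity) e2
    have e7 : (1 + u) ^ 4 ≤ 16 := by
      calc (1 + u) ^ 4 ≤ 2 ^ 4 := pow_le_pow_left₀ (by linarith) (by linarith) 4
        _ = 16 := by norm_num
    obtain ⟨p, hp⟩ : ∃ p, p = u ^ (-(1 / 4) : ℝ) := ⟨_, rfl⟩
    obtain ⟨q, hq⟩ : ∃ q, q = (u / T) ^ (-3 : ℝ) := ⟨_, rfl⟩
    rw [← hp] at hgen e3 hup ⊢
    rw [← hq] at e6 hq3 ⊢
    have e8 : ‖E1 X u‖ ≤ (16 * C2 + 2 * C3 + 2) * (p * q) := by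
      have f1 : 1 ≤ q := e5.trans e6
      have f2 : p ≤ p * q := le_mul_of_one_le_right hup.le f1
      have f3 : q ≤ p * q := le_mul_of_one_le_left hq3.le e3
      have f4 : C2 * (1 + u) ^ 4 ≤ 16 * C2 * (p * q) := by
        calc C2 * (1 + u) ^ 4 ≤ C2 * 16 := mul_le_mul_of_nonneg_left e7 hC2.le
          _ = 16 * C2 * 1 := by ring
          _ ≤ 16 * C2 * (p * q) := mul_le_mul_of_nonneg_left (f1.trans f3) (by positivity)
      have f5 : C3 * (p + u) ≤ 2 * C3 * (p * q) := by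
        calc C3 * (p + u) ≤ C3 * (p * q + p * q) :=
              mul_le_mul_of_nonneg_left (add_le_add f2 (hu1.trans (f1.trans f3))) hC3.le
          _ = _ := by ring
      have f6 : 2 * (X : ℝ) ^ 2 ≤ 2 * (p * q) := by linarith
      calc ‖E1 X u‖ ≤ 16 * C2 * (p * q) + 2 * C3 * (p * q) + 2 * (p * q) := by linarith
        _ = _ := by ring
    refine e8.trans ?_
    apply mul_le_mul _ _ (by positivity) (by positivity)
    · have : 0 ≤ (16 * C2 + 2 * C3 + 2) * D := by positivity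
      linarith
    · exact mul_le_mul_of_nonneg_left (by linarith) hup.le
  · rcases le_or_gt (u ^ (1 + ε / 4)) (X : ℝ) with huX | huX
    · refine (h1 X u hu1 huX).trans ?_
      apply mul_le_mul _ _ hup.le (by positivity)
      · have : 0 ≤ (16 * C2 + 2 * C3 + 2) * D := by positivity
        have : 0 ≤ 16 * C2 + 2 * C3 + 2 := by positivity
        linarith
      · exact le_mul_of_one_le_right hup.le (by linarith)
    · -- large `u`
      have hu4 : 1 ≤ u ^ 4 := one_le_pow₀ hu1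
      have e1 : (X : ℝ) ^ 2 ≤ u ^ 4 := by
        calc (X : ℝ) ^ 2 ≤ (u ^ (1 + ε / 4)) ^ 2 := pow_le_pow_left₀ (Nat.cast_nonneg _) huX.le 2
          _ = u ^ ((1 + ε / 4) * 2) := by rw [← Real.rpow_natCast, ← Real.rpow_mul hu.le]; norm_num
          _ ≤ u ^ (4 : ℝ) := Real.rpow_le_rpow_of_exponent_le hu1 (by linarith)
          _ = u ^ 4 := by norm_num
      have e2 : (1 + u) ^ 4 ≤ 16 * u ^ 4 := by
        calc (1 + u) ^ 4 ≤ (2 * u) ^ 4 := pow_le_pow_left₀ (by linarith) (by linarith) 4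
          _ = _ := by ring
      have e3 : u ^ (-(1 / 4) : ℝ) ≤ u ^ 4 := by
        refine le_trans ?_ hu4
        exact Real.rpow_le_one_of_one_le_of_nonpos hu1 (by norm_num)
      have e4 : u ≤ u ^ 4 := le_self_pow₀ hu1 (by norm_num)
      have e5 : ‖E1 X u‖ ≤ (16 * C2 + 2 * C3 + 2) * u ^ 4 := by nlinarith
      have e6 : u ^ 4 = u ^ (-(1 / 4) : ℝ) * u ^ (17 / 4 : ℝ) := by
        rw [← Real.rpow_add hu, ← Real.rpow_natCast]
        norm_num
      have e7 : u ^ (17 / 4 : ℝ) ≤ D * (u / T) ^ M := by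
        have g1 : u ^ (3 * ε / 4) ≤ 2 * (u / T) ^ (1 + ε) := by
          have g2 : T ^ (1 + ε) ≤ 2 * u ^ (1 + ε / 4) := by linarith
          rw [Real.div_rpow hu.le hT0.le, ← mul_div_assoc, le_div_iff₀ (by positivity)]
          calc u ^ (3 * ε / 4) * T ^ (1 + ε) ≤ u ^ (3 * ε / 4) * (2 * u ^ (1 + ε / 4)) :=
                mul_le_mul_of_nonneg_left g2 (by positivity)
            _ = 2 * (u ^ (3 * ε / 4) * u ^ (1 + ε / 4)) := by ring
            _ = 2 * u ^ (1 + ε) := by rw [← Real.rpow_add hu]; ring_nf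
        calc u ^ (17 / 4 : ℝ) = (u ^ (3 * ε / 4)) ^ (17 / (3 * ε)) := by
              rw [← Real.rpow_mul hu.le]
              congr 1
              field_simp
          _ ≤ (2 * (u / T) ^ (1 + ε)) ^ (17 / (3 * ε)) :=
              Real.rpow_le_rpow (by positivity) g1 (by positivity)
          _ = D * (u / T) ^ M := by
              rw [Real.mul_rpow (by norm_num) (by positivity), ← Real.rpow_mul (by positivity), hD, hM]
              congr 2
              ring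
      calc ‖E1 X u‖ ≤ (16 * C2 + 2 * C3 + 2) * u ^ 4 := e5
        _ ≤ (16 * C2 + 2 * C3 + 2) * (u ^ (-(1 / 4) : ℝ) * (D * (u / T) ^ M)) := by
            apply mul_le_mul_of_nonneg_left _ (by positivity)
            rw [e6]
            exact mul_le_mul_of_nonneg_left e7 hup.le
        _ = ((16 * C2 + 2 * C3 + 2) * D) * (u ^ (-(1 / 4) : ℝ) * (u / T) ^ M) := by ring
        _ ≤ _ := by
            apply mul_le_mul _ _ (by positivity) (by positivity)
            · have : 0 ≤ 16 * C2 + 2 * C3 + 2 := by positivity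
              linarith
            · exact mul_le_mul_of_nonneg_left (by linarith) hup.le

end

end Pool.Agent.K1H89.DLSP
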