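import Pool.Agent.K1H89.DLSP.B

set_option autoImplicit false

/-!
Project DL, piece SP: the integral of the rest.
-/

namespace Pool.Agent.K1H89.DLSP

open MeasureTheory Set Filter Topology
open Complex (I)
open Pool.Agent.Y969.GP (ff ht lam PS PX cr co V)
open Pool.Agent.K1H51.DL

noncomputable section

/-- the twist -/
def tw (y u : ℝ) : ℂ := Complex.exp (-(I * ((y * Real.log u : ℝ) : ℂ)))

lemma norm_tw (y u : ℝ) : ‖tw y u‖ = 1 := by
  unfold tw
  rw [show -(I * ((y * Real.log u : ℝ) : ℂ)) = ((-(y * Real.log u) : ℝ) : ℂ) * I by push_cast; ring]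
  exact Complex.norm_exp_ofReal_mul_I _

lemma tw_cont (y : ℝ) : ContinuousOn (tw y) (Ioi 0) := by
  unfold tw
  apply Continuous.comp_continuousOn Complex.continuous_exp
  apply ContinuousOn.neg
  apply ContinuousOn.mul continuousOn_const
  apply Continuous.comp_continuousOn Complex.continuous_ofReal
  exact continuousOn_const.mul (Real.continuousOn_log.mono fun u hu => (mem_Ioi.1 hu).ne')

lemma V_cont : ContinuousOn V (Ioi 0) := fun x hx =>
  (Pool.Agent.Y587.GP.t_V.2.1 x hx).continuousAt.continuousWithinAt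

lemma co_cont {p : ℕ × ℕ} (hp : 0 < ht p) : ContinuousOn (co p) (Ioi 0) := by
  unfold co
  apply continuousOn_const.mul
  refine V_cont.comp (f := fun u : ℝ => 2 * Real.pi * ht p / u) ?_ ?_
  · exact continuousOn_const.div continuousOn_id fun u hu => (mem_Ioi.1 hu).ne'
  · intro u hu
    have := mem_Ioi.1 hu
    exact mem_Ioi.2 (by positivity)

lemma Od_cont (X : ℕ) : ContinuousOn (Od X) (Ioi 0) := by
  unfold Od
  apply continuousOn_finsetSum
  intro p hp
  apply ContinuousOn.mul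
  · exact Complex.continuous_ofReal.comp_continuousOn
      (co_cont (by have := ht_ge (Finset.mem_filter.1 hp).1; linarith))
  · exact (by fun_prop : Continuous fun u : ℝ =>
      Complex.exp (I * ((u * lam p : ℝ) : ℂ))).continuousOn

lemma Mz_cont : ContinuousOn Mz (Ioi 0) := by
  unfold Mz
  apply ContinuousOn.add _ continuousOn_const
  apply ContinuousOn.log
  · exact continuousOn_id.div_const _
  · intro u hu
    have := mem_Ioi.1 hu
    show u / (2 * Real.pi) ≠ 0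
    positivity

lemma E1_cont (X : ℕ) : ContinuousOn (E1 X) (Ioi 0) := by
  unfold E1
  apply ContinuousOn.sub _ (Od_cont X)
  exact Complex.continuous_ofReal.comp_continuousOn (ff_cont.continuousOn.sub Mz_cont)

/-- the weight with `du/u` -/
def wd (T u : ℝ) : ℝ := W T u / u

lemma wd_cont (T : ℝ) : ContinuousOn (wd T) (Ioi 0) := by
  unfold wd W
  apply ContinuousOn.div _ continuousOn_id fun u hu => (mem_Ioi.1 hu).ne'
  exact (by fun_prop : Continuous fun u : ℝ => (u / T) ^ 4 * Real.exp (-(u / T))).continuousOn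

lemma wd_nonneg {T u : ℝ} (hu : 0 < u) : 0 ≤ wd T u := by unfold wd W; positivity

/-- the majorant -/
def G (M x : ℝ) : ℝ := x ^ (-(1 / 4) : ℝ) * (x ^ (-3 : ℝ) + 1 + x ^ M) * (x ^ 4 * Real.exp (-x) / x)

lemma G_int {M : ℝ} (hM : 0 ≤ M) : IntegrableOn (G M) (Ioi 0) := by
  have h1 := Real.GammaIntegral_convergent (show (0 : ℝ) < 3 / 4 by norm_num)
  have h2 := Real.GammaIntegral_convergent (show (0 : ℝ) < 15 / 4 by norm_num)
  have h3 := Real.GammaIntegral_convergent (show (0 : ℝ) < M + 15 / 4 by linarith)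
  refine ((h1.add h2).add h3).congr_fun ?_ measurableSet_Ioi
  intro x hx
  have hx0 : 0 < x := mem_Ioi.1 hx
  unfold G
  have e1 : x ^ (3 / 4 - 1 : ℝ) = x ^ (-(1 / 4) : ℝ) * x ^ (-3 : ℝ) * x ^ 4 / x := by
    rw [← Real.rpow_natCast x 4, ← Real.rpow_add hx0, ← Real.rpow_add hx0,
      ← Real.rpow_sub_one hx0.ne']
    norm_num
  have e2 : x ^ (15 / 4 - 1 : ℝ) = x ^ (-(1 / 4) : ℝ) * x ^ 4 / x := by
    rw [← Real.rpow_natCast x 4, ← Real.rpow_add hx0, ← Real.rpow_sub_one hx0.ne']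
    norm_num
  have e3 : x ^ (M + 15 / 4 - 1 : ℝ) = x ^ (-(1 / 4) : ℝ) * x ^ M * x ^ 4 / x := by
    rw [← Real.rpow_natCast x 4, ← Real.rpow_add hx0, ← Real.rpow_add hx0,
      ← Real.rpow_sub_one hx0.ne']
    congr 1
    push_cast
    ring
  simp only [Pi.add_apply]
  rw [e1, e2, e3]
  ring

lemma G_nonneg {M x : ℝ} (hx : 0 < x) : 0 ≤ G M x := by unfold G; positivity

lemma maj_eq {T u M : ℝ} (hT : 0 < T) (hu : 0 < u) :
    u ^ (-(1 / 4) : ℝ) * ((u / T) ^ (-3 : ℝ) + 1 + (u / T) ^ M) * wd T u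
      = T ^ (-(1 / 4) : ℝ) * T⁻¹ * G M (T⁻¹ * u) := by
  obtain ⟨x, hx⟩ : ∃ x, x = u / T := ⟨_, rfl⟩
  have hux : u = T * x := by rw [hx]; field_simp
  have hx' : T⁻¹ * u = x := by rw [hx]; field_simp
  have hx0 : 0 < x := by rw [hx]; positivity
  have e1 : u ^ (-(1 / 4) : ℝ) = T ^ (-(1 / 4) : ℝ) * x ^ (-(1 / 4) : ℝ) := by
    rw [hux, Real.mul_rpow hT.le hx0.le]
  unfold wd W
  rw [← hx, hx', e1]
  unfold G
  rw [hux]
  field_simp

/-- the integral of the rest -/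
lemma int_E1 {ε : ℝ} (hε : 0 < ε) (hε1 : ε ≤ 1 / 100) : ∃ C : ℝ, 0 < C ∧
    ∀ (T y : ℝ) (X : ℕ), 1 ≤ T → X = ⌊T ^ (1 + ε)⌋₊ →
      IntegrableOn (fun u => E1 X u * (wd T u : ℂ) * tw y u) (Ioi 0) ∧
      ‖∫ u in Ioi (0 : ℝ), E1 X u * (wd T u : ℂ) * tw y u‖ ≤ C * T ^ (-(1 / 4) : ℝ) := by
  obtain ⟨C, M, hC, hM, h⟩ := E1_all hε hε1
  have hG := G_int hM
  have hG0 : 0 ≤ ∫ x in Ioi (0 : ℝ), G M x := setIntegral_nonneg measurableSet_Ioi fun x hx =>
    G_nonneg (mem_Ioi.1 hx)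
  refine ⟨C * (1 + ∫ x in Ioi (0 : ℝ), G M x), by positivity, ?_⟩
  intro T y X hT hX
  have hT0 : 0 < T := by linarith
  have hgi : IntegrableOn (fun u => C * (T ^ (-(1 / 4) : ℝ) * T⁻¹ * G M (T⁻¹ * u))) (Ioi 0) := by
    apply Integrable.const_mul
    apply Integrable.const_mul
    have := (integrableOn_Ioi_comp_mul_left_iff (G M) 0 (inv_pos.2 hT0)).2 (by rwa [mul_zero])
    exact this
  have hbd : ∀ᵐ u ∂(volume.restrict (Ioi (0 : ℝ))), ‖E1 X u * (wd T u : ℂ) * tw y u‖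
      ≤ C * (T ^ (-(1 / 4) : ℝ) * T⁻¹ * G M (T⁻¹ * u)) := by
    refine (ae_restrict_iff' measurableSet_Ioi).2 (Eventually.of_forall fun u hu => ?_)
    have hu0 : 0 < u := mem_Ioi.1 hu
    rw [norm_mul, norm_mul, norm_tw, mul_one, Complex.norm_real, Real.norm_eq_abs,
      abs_of_nonneg (wd_nonneg hu0), ← maj_eq hT0 hu0]
    refine (mul_le_mul_of_nonneg_right (h T X u hT hX hu0) (wd_nonneg hu0)).trans (le_of_eq ?_)
    ring
  have hmeas : AEStronglyMeasurable (fun u => E1 X u * (wd T u : ℂ) * tw y u)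
      (volume.restrict (Ioi (0 : ℝ))) := by
    apply ContinuousOn.aestronglyMeasurable _ measurableSet_Ioi
    exact ((E1_cont X).mul (Complex.continuous_ofReal.comp_continuousOn (wd_cont T))).mul (tw_cont y)
  have hint : IntegrableOn (fun u => E1 X u * (wd T u : ℂ) * tw y u) (Ioi 0) :=
    Integrable.mono' hgi hmeas hbd
  refine ⟨hint, ?_⟩
  refine (norm_integral_le_of_norm_le hgi hbd).trans ?_
  have hcomp := integral_comp_mul_left_Ioi (G M) 0 (inv_pos.2 hT0)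
  rw [mul_zero, inv_inv, smul_eq_mul] at hcomp
  rw [integral_const_mul, integral_const_mul, hcomp]
  have e1 : T ^ (-(1 / 4) : ℝ) * T⁻¹ * (T * ∫ x in Ioi (0 : ℝ), G M x)
      = T ^ (-(1 / 4) : ℝ) * ∫ x in Ioi (0 : ℝ), G M x := by
    field_simp
  rw [e1]
  have hTp : 0 < T ^ (-(1 / 4) : ℝ) := by positivity
  nlinarith [mul_pos hC hTp, mul_nonneg hTp.le hG0]

end

end Pool.Agent.K1H89.DLSP
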