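import Pool.Agent.K1H89.DLSP.C
import Pool.Agent.H581R3.GPR.Rot

set_option autoImplicit false

/-!
Project DL, piece SP: the off-diagonal part.
-/

namespace Pool.Agent.K1H89.DLSP

open MeasureTheory Set Filter Topology
open Complex (I)
open Pool.Agent.Y969.GP (ff ht lam PS PX cr co V)
open Pool.Agent.K1H51.DL

noncomputable section

/-- the kernel -/
def Kr (σ τ : ℝ) : ℂ := Complex.exp ((σ + I * τ) ^ 2) / (σ + I * τ) *
  Complex.exp (-((σ + I * τ) * ((Real.log (2 * Real.pi) : ℝ) : ℂ)))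

lemma den_ne {σ : ℝ} (hσ : 0 < σ) (τ : ℝ) : (σ + I * τ : ℂ) ≠ 0 := by
  intro h
  have := congrArg Complex.re h
  simp at this
  exact hσ.ne' this

lemma Kr_cont {σ : ℝ} (hσ : 0 < σ) : Continuous (Kr σ) := by
  unfold Kr
  apply Continuous.mul
  · apply Continuous.div
    · fun_prop
    · fun_prop
    · exact den_ne hσ
  · fun_prop

lemma norm_Kr_le {σ : ℝ} (hσ : 0 < σ) (hσ1 : σ ≤ 1) (τ : ℝ) :
    ‖Kr σ τ‖ ≤ Real.exp 1 / σ * Real.exp (-τ ^ 2) := by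
  unfold Kr
  rw [norm_mul, norm_div, Complex.norm_exp, Complex.norm_exp]
  have e1 : ((σ + I * τ : ℂ) ^ 2).re = σ ^ 2 - τ ^ 2 := by
    rw [sq]
    simp [Complex.mul_re]
    ring
  have e2 : (-((σ + I * τ : ℂ) * ((Real.log (2 * Real.pi) : ℝ) : ℂ))).re
      = -(σ * Real.log (2 * Real.pi)) := by
    simp [Complex.mul_re]
  have e3 : σ ≤ ‖(σ + I * τ : ℂ)‖ := by
    have h1 := Complex.abs_re_le_norm (σ + I * τ : ℂ)
    have h2 : (σ + I * τ : ℂ).re = σ := by simp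
    rw [h2, abs_of_pos hσ] at h1
    exact h1
  have hlog : 0 ≤ Real.log (2 * Real.pi) := Real.log_nonneg (by nlinarith [Real.pi_gt_three])
  have e4 : Real.exp (-(σ * Real.log (2 * Real.pi))) ≤ 1 := by
    rw [Real.exp_le_one_iff]
    nlinarith [mul_nonneg hσ.le hlog]
  have e5 : Real.exp (σ ^ 2 - τ ^ 2) ≤ Real.exp 1 * Real.exp (-τ ^ 2) := by
    rw [← Real.exp_add]
    apply Real.exp_le_exp.2
    nlinarith
  rw [e1, e2]
  calc Real.exp (σ ^ 2 - τ ^ 2) / ‖(σ + I * τ : ℂ)‖ * Real.exp (-(σ * Real.log (2 * Real.pi)))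
      ≤ Real.exp (σ ^ 2 - τ ^ 2) / ‖(σ + I * τ : ℂ)‖ * 1 :=
        mul_le_mul_of_nonneg_left e4 (by positivity)
    _ = Real.exp (σ ^ 2 - τ ^ 2) / ‖(σ + I * τ : ℂ)‖ := mul_one _
    _ ≤ (Real.exp 1 * Real.exp (-τ ^ 2)) / σ :=
        div_le_div₀ (by positivity) e5 hσ e3
    _ = _ := by ring

/-- the inner function -/
def gg (T σ y : ℝ) (p : ℕ × ℕ) (u τ : ℝ) : ℂ :=
  Complex.exp ((σ + I * τ) * ((Real.log u : ℝ) : ℂ)) * Complex.exp (I * ((u * lam p : ℝ) : ℂ)) *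
    (wd T u : ℂ) * tw y u

lemma norm_gg (T σ y : ℝ) (p : ℕ × ℕ) (u τ : ℝ) :
    ‖gg T σ y p u τ‖ = Real.exp (σ * Real.log u) * |wd T u| := by
  unfold gg
  rw [norm_mul, norm_mul, norm_mul, norm_e, norm_tw, mul_one, mul_one, Complex.norm_real,
    Real.norm_eq_abs, Complex.norm_exp]
  congr 2
  simp [Complex.mul_re]

lemma gg_meas (T σ y : ℝ) (p : ℕ × ℕ) : Measurable fun z : ℝ × ℝ => gg T σ y p z.1 z.2 := by
  unfold gg wd W tw
  fun_prop

/-- the modulus is integrable -/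
lemma al_int {T σ : ℝ} (hT : 0 < T) (hσ : 0 < σ) :
    IntegrableOn (fun u => Real.exp (σ * Real.log u) * |wd T u|) (Ioi 0) := by
  have h1 := integrableOn_rpow_mul_exp_neg_mul_rpow (s := σ + 3) (p := 1) (b := T⁻¹) (by linarith)
    one_pos (by positivity)
  have h2 : IntegrableOn (fun x => (T ^ 4)⁻¹ * (x ^ (σ + 3) * Real.exp (-T⁻¹ * x ^ (1 : ℝ))))
      (Ioi 0) := Integrable.const_mul h1 _
  refine h2.congr_fun ?_ measurableSet_Ioi
  intro u hu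
  have hu0 : 0 < u := mem_Ioi.1 hu
  simp only
  rw [abs_of_nonneg (wd_nonneg hu0), Real.rpow_one, Real.rpow_add hu0, mul_comm σ,
    ← Real.rpow_def_of_pos hu0]
  unfold wd W
  have e1 : u ^ (3 : ℝ) = u ^ 3 := by norm_num
  have e2 : -T⁻¹ * u = -(u / T) := by ring
  rw [e1, e2]
  field_simp

/-- the Gamma integral -/
lemma gg_integral {T σ : ℝ} (hT : 0 < T) (hσ : 0 < σ) (y : ℝ) (p : ℕ × ℕ) (τ : ℝ) :
    ∫ u in Ioi (0 : ℝ), gg T σ y p u τ = (((T ^ 4)⁻¹ : ℝ) : ℂ) *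
      (Complex.Gamma (4 + σ + I * ((τ - y : ℝ) : ℂ)) *
        Complex.exp (-((4 + σ + I * ((τ - y : ℝ) : ℂ)) *
          Complex.log (((T⁻¹ : ℝ) : ℂ) - I * ((lam p : ℝ) : ℂ))))) := by
  obtain ⟨z, hz⟩ : ∃ z : ℂ, z = 4 + σ + I * ((τ - y : ℝ) : ℂ) := ⟨_, rfl⟩
  obtain ⟨r, hr⟩ : ∃ r : ℂ, r = ((T⁻¹ : ℝ) : ℂ) - I * ((lam p : ℝ) : ℂ) := ⟨_, rfl⟩
  have hzre : 0 < z.re := by
    rw [hz]
    simp
    linarith
  have hrre : 0 < r.re := by
    rw [hr]
    simp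
    exact hT
  have h1 := Pool.Agent.H581R3.GPR.Rot.rot_formula hzre hrre
  have h2 : (1 / r) ^ z = Complex.exp (-(z * Complex.log r)) := by
    have hr0 : r ≠ 0 := by
      intro h
      rw [h] at hrre
      simp at hrre
    rw [one_div, Complex.cpow_def_of_ne_zero (inv_ne_zero hr0), Complex.log_inv]
    · congr 1
      ring
    · intro harg
      rw [Complex.arg_eq_pi_iff] at harg
      linarith [harg.1]
  rw [h2] at h1
  rw [← hz, ← hr, mul_comm (Complex.Gamma z), ← h1, ← integral_const_mul]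
  apply setIntegral_congr_fun measurableSet_Ioi
  intro u hu
  have hu0 : 0 < u := mem_Ioi.1 hu
  have hu0' : (u : ℂ) ≠ 0 := by exact_mod_cast hu0.ne'
  simp only
  unfold gg wd W tw
  rw [Complex.cpow_def_of_ne_zero hu0', ← Complex.ofReal_log hu0.le]
  obtain ⟨l, hl⟩ : ∃ l : ℂ, l = ((Real.log u : ℝ) : ℂ) := ⟨_, rfl⟩
  have h3 : (u : ℂ) ^ 3 = Complex.exp (3 * l) := by
    rw [hl, show (3 : ℂ) * ((Real.log u : ℝ) : ℂ) = ((3 : ℕ) : ℂ) * ((Real.log u : ℝ) : ℂ) by norm_num,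
      Complex.exp_nat_mul, ← Complex.ofReal_exp, Real.exp_log hu0]
  have hT' : (T : ℂ) ≠ 0 := by exact_mod_cast hT.ne'
  have h4 : (((u / T) ^ 4 * Real.exp (-(u / T)) / u : ℝ) : ℂ)
      = (((T ^ 4)⁻¹ : ℝ) : ℂ) * ((u : ℂ) ^ 3 * Complex.exp (-((u : ℂ) / T))) := by
    push_cast
    field_simp
  rw [h4, h3, ← hl]
  have h5 : Complex.exp (l * (z - 1)) * Complex.exp (-(r * u))
      = Complex.exp ((σ + I * τ) * l) * Complex.exp (I * ((u * lam p : ℝ) : ℂ)) *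
        (Complex.exp (3 * l) * Complex.exp (-((u : ℂ) / T))) *
        Complex.exp (-(I * ((y * Real.log u : ℝ) : ℂ))) := by
    rw [← Complex.exp_add, ← Complex.exp_add, ← Complex.exp_add, ← Complex.exp_add,
      ← Complex.exp_add]
    congr 1
    rw [hz, hr]
    push_cast
    rw [← hl]
    field_simp
    ring
  rw [h5]
  ring

end

end Pool.Agent.K1H89.DLSP
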